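import Mathlib
import Pool.Agent.Lib_51bf1a.Defs
import Pool.Agent.Lib_51bf1a.E7_Fail

/-!
# Finite jet determination for holomorphically nondegenerate CR manifolds

First part.  Let `M` be a connected real-analytic generic submanifold of `ℂ^N` of codimension `d`
which is holomorphically nondegenerate, and suppose that `M` is of finite type (equivalently,
minimal) at some point, or that `M` is a hypersurface and `N ≥ 2`.  Then for every point `p` of `M`
(the points where `M` is not of finite type included) there is a `k` such that the local analytic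
CR automorphisms of `M` fixing `p` are determined by their `k`-jets at `p`.

Second part.  Some condition of this kind is needed: the connected generic submanifold
`Im w = |z|^2, Im s = 0` of `ℂ^3` is holomorphically nondegenerate, is nowhere of finite type, and
finite jet determination fails at every one of its points.
-/

namespace Pool.Agent.Results.MP_51bf1a_an.FiniteJetDetermination

open Pool.Agent.MP_51bf1a_an

theorem result :
    (∀ (N d : ℕ) (M : Set (Fin N → ℂ)), IsGenericSubmanifold M d → IsConnected M →
      HolomorphicallyNondegenerate M →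
      ((∃ q ∈ M, FiniteTypeAt M q) ∨ (d = 1 ∧ 2 ≤ N)) →
      ∀ p ∈ M, FiniteJetDetermination M p) ∧
    (∃ M : Set (Fin 3 → ℂ), M = {z | (z 1).im = Complex.normSq (z 0) ∧ (z 2).im = 0} ∧
      IsGenericSubmanifold M 2 ∧ IsConnected M ∧ HolomorphicallyNondegenerate M ∧
      (∀ p ∈ M, ¬ FiniteTypeAt M p) ∧ (∀ p ∈ M, ¬ FiniteJetDetermination M p)) := by
  refine ⟨?_, ?_⟩
  · rintro N d M hM hc hnd (hft | ⟨hd, hN⟩)
    · exact Pool.Agent.Lib51bf1a.main_generic hM hc.isPreconnected hnd hft
    · subst hd
      exact Pool.Agent.Lib51bf1a.main_hyper hM hN hnd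
  · refine ⟨Pool.Agent.Lib51bf1a.Mex, rfl, Pool.Agent.Lib51bf1a.exGeneric,
      Pool.Agent.Lib51bf1a.exConnected, Pool.Agent.Lib51bf1a.exNondeg, ?_, ?_⟩
    · intro p hp hft
      exact Pool.Agent.Lib51bf1a.exFail hp (Pool.Agent.Lib51bf1a.main_generic
        Pool.Agent.Lib51bf1a.exGeneric Pool.Agent.Lib51bf1a.exConnected.isPreconnected
        Pool.Agent.Lib51bf1a.exNondeg ⟨p, hp, hft⟩ p hp)
    · intro p hp
      exact Pool.Agent.Lib51bf1a.exFail hp

end Pool.Agent.Results.MP_51bf1a_an.FiniteJetDetermination
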